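import Pool.Agent.helper88.RL.SpecW
set_option autoImplicit false
namespace Pool.Agent.RL
open Finset Pool.Agent.helper3.FT Pool.Agent.T6 Pool.Agent.RF

theorem VDQ_ph : ph ^ 2 = 1 + ph := by
  ext <;> simp [ph, pow_two, QuadraticAlgebra.re_one, QuadraticAlgebra.im_one]

theorem VDQ_star_ph : star ph = 1 - ph := by
  ext <;> simp [ph, QuadraticAlgebra.re_one, QuadraticAlgebra.im_one]

theorem VDQ_r5 : r5 = 2 * ph - 1 := by
  ext <;> simp [ph, r5, QuadraticAlgebra.re_one, QuadraticAlgebra.im_one, QuadraticAlgebra.re_ofNat, QuadraticAlgebra.im_ofNat]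

theorem VDQ_mk (u v : ℤ) : (⟨u, v⟩ : OO) = (u : OO) + (v : OO) * ph := by
  ext <;> simp [ph]

/-- **Row VDQ** -/
theorem VDQ (hVIN : VIN_stmt) : VDQ_stmt := by
  intro k g c h α β γ P₁ P₂ u v hkk h10 hcg hRQ hd1 hd2
  obtain ⟨hkr, -, hint, -⟩ := hVIN k hkk h10
  have hph := VDQ_ph
  have hsp := VDQ_star_ph
  obtain ⟨t1, E1⟩ := (hint _).2 hd1
  obtain ⟨t2, E2⟩ := (hint _).2 hd2
  push_cast at E1 E2
  obtain ⟨a1, A1⟩ := hRQ.ha
  obtain ⟨b1, B1⟩ := hRQ.hb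
  obtain ⟨c1, C1⟩ := hRQ.hc
  rw [VDQ_mk u v]
  have hSU : star ((u : OO) + (v : OO) * ph) = (u : OO) + (v : OO) * (1 - ph) := by
    rw [star_add, star_mul, hsp, star_intCast, star_intCast]
    ring
  have hSP : star (ph * (P₁ : OO) - (P₂ : OO)) = (1 - ph) * (P₁ : OO) - (P₂ : OO) := by
    rw [star_sub, star_mul, hsp, star_intCast, star_intCast]
    ring
  rw [hSU, hSP]
  have hcast : ((h * c : ℤ) : OO) = (h : OO) * (c : OO) := by push_cast; ring
  rw [hcast]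
  have hkr' := hkr
  rw [VDQ_r5] at A1 B1 C1 hkr'
  -- step b
  have hb : k ^ 3 ∣ (star g * (2 * ph - 1) * star k ^ 2) * (((h : OO) * c * ((u : OO) + (v : OO) * ph)) - (ph * P₁ - P₂)) := by
    refine ⟨(star g * star k ^ 2 * (2 * ph - 1) * ph) * t1 - (star g * star k ^ 2 * (2 * ph - 1)) * t2
      - 2 * h * u * ph * a1 - h * (ph * v - u) * b1 + 2 * h * v * c1, ?_⟩
    linear_combination (star g * star k ^ 2 * (2 * ph - 1) * ph) * E1 - (star g * star k ^ 2 * (2 * ph - 1)) * E2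
      - 2 * h * u * ph * A1 - h * (ph * v - u) * B1 + 2 * h * v * C1 + 2 * v * star g * star k ^ 2 * h * c * hph
  have hco1 : IsCoprime (k ^ 3) (star g * (2 * ph - 1) * star k ^ 2) :=
    ((hcg.mul_right hkr').mul_right (hkk.pow_right)).pow_left
  -- step c
  have hc : k ^ 3 ∣ (2 * ph - 1) * (star g * star k ^ 2 * ((1 - ph) * P₁ - P₂) +
      h * c * (star g * star k ^ 2 * ((u : OO) + (v : OO) * (1 - ph)) + 4 * ph * k ^ 2 * g * ((u : OO) + (v : OO) * ph))) := by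
    refine ⟨-(star g * star k ^ 2 * (2 * ph - 1) * (1 - ph)) * t1 + (star g * star k ^ 2 * (2 * ph - 1)) * t2
      + 2 * h * u * (1 - ph) * a1 - h * (u - (1 - ph) * v) * b1 - 2 * h * v * c1, ?_⟩
    linear_combination -(star g * star k ^ 2 * (2 * ph - 1) * (1 - ph)) * E1 + (star g * star k ^ 2 * (2 * ph - 1)) * E2
      + 2 * h * u * (1 - ph) * A1 - h * (u - (1 - ph) * v) * B1 - 2 * h * v * C1 - 2 * v * star g * star k ^ 2 * h * c * hph
  exact ⟨hco1.dvd_of_dvd_mul_left hb, (hkr'.pow_left (m := 3)).dvd_of_dvd_mul_left hc⟩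

end Pool.Agent.RL
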